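import Pool.Agent.H61.KV.TF

/-!
# Kuiper board KV, row AL2

The normal form in terms of Hermitian matrices.
-/

open Pool.Agent.H61.KV

namespace Pool.Agent.H51.KV

theorem pf_AL2 : T_AL2 := by
  intro β x₀ x₁ y₀ y₁ t₁ t₂ k₀ k₁ hsymm hx ht h1 h2 h3 h4 h5 h6 h7 h8 h9 h10
  have hfin : Module.finrank ℝ F4 = 4 := by simp [F4]
  have hfin2 : Module.finrank ℝ (Fin 2 → ℂ) = 4 := by
    rw [Module.finrank_pi_fintype]
    simp [Complex.finrank_real_complex]
  let θ₀ : (Fin 2 → ℂ) →ₗ[ℝ] F4 :=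
    { toFun := fun z => (z 0).re • x₀ + (z 0).im • x₁ + (z 1).re • y₀ + (z 1).im • y₁
      map_add' := by
        intro z w
        simp only [Pi.add_apply, Complex.add_re, Complex.add_im]
        module
      map_smul' := by
        intro c z
        simp only [Pi.smul_apply, Complex.real_smul, Complex.mul_re, Complex.mul_im,
          Complex.ofReal_re, Complex.ofReal_im, RingHom.id_apply]
        module }
  have hθ₀ : ∀ z, θ₀ z = (z 0).re • x₀ + (z 0).im • x₁ + (z 1).re • y₀ + (z 1).im • y₁ :=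
    fun z => rfl
  have hinj : Function.Injective θ₀ := by
    rw [injective_iff_map_eq_zero]
    intro z hz
    rw [hθ₀] at hz
    rw [Fintype.linearIndependent_iff] at hx
    have := hx ![(z 0).re, (z 0).im, (z 1).re, (z 1).im] (by
      simp [Fin.sum_univ_four]
      rw [← hz])
    have e0 := this 0
    have e1 := this 1
    have e2 := this 2
    have e3 := this 3
    simp at e0 e1 e2 e3
    ext i
    fin_cases i
    · exact Complex.ext e0 e1
    · exact Complex.ext e2 e3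
  let θ : (Fin 2 → ℂ) ≃ₗ[ℝ] F4 := LinearMap.linearEquivOfInjective θ₀ hinj (by rw [hfin, hfin2])
  have hθ : ∀ z, θ z = (z 0).re • x₀ + (z 0).im • x₁ + (z 1).re • y₀ + (z 1).im • y₁ := by
    intro z
    rw [← hθ₀]
    rfl
  let B : Module.Basis (Fin 4) ℝ F4 := basisOfLinearIndependentOfCardEqFinrank ht (by simp [hfin])
  have hB : ∀ i, B i = ![t₁, t₂, k₀, k₁] i := by
    intro i
    simp [B]
  let Λ : F4 →ₗ[ℝ] Matrix (Fin 2) (Fin 2) ℂ := B.constr ℝ
    ![!![1, 0; 0, 0], !![0, 0; 0, 1], !![0, 1 / 2; 1 / 2, 0], !![0, - Complex.I / 2; Complex.I / 2, 0]]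
  have hΛ : ∀ i, Λ (B i) = (![!![1, 0; 0, 0], !![0, 0; 0, 1], !![0, 1 / 2; 1 / 2, 0],
      !![0, - Complex.I / 2; Complex.I / 2, 0]] : Fin 4 → Matrix (Fin 2) (Fin 2) ℂ) i := by
    intro i
    exact B.constr_basis ℝ _ i
  have hΛa : ∀ a, Λ a = !![((B.repr a 0 : ℝ) : ℂ), ((B.repr a 2 : ℝ) : ℂ) / 2 - ((B.repr a 3 : ℝ) : ℂ) * Complex.I / 2;
      ((B.repr a 2 : ℝ) : ℂ) / 2 + ((B.repr a 3 : ℝ) : ℂ) * Complex.I / 2, ((B.repr a 1 : ℝ) : ℂ)] := by
    intro a
    have h : Λ a = ∑ i, B.repr a i • Λ (B i) := by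
      conv_lhs => rw [← B.sum_repr a]
      rw [map_sum]
      simp only [map_smul]
    rw [h]
    simp only [hΛ, Fin.sum_univ_four]
    ext i j
    fin_cases i <;> fin_cases j <;> simp <;> ring
  refine ⟨θ, Λ, ?_, ?_, ?_⟩
  · rw [injective_iff_map_eq_zero]
    intro a ha
    rw [hΛa] at ha
    have m00 := congrFun (congrFun ha 0) 0
    have m01 := congrFun (congrFun ha 0) 1
    have m11 := congrFun (congrFun ha 1) 1
    simp at m00 m01 m11
    have r2 := congrArg Complex.re m01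
    have r3 := congrArg Complex.im m01
    simp at r2 r3
    have h0 : B.repr a = 0 := by
      ext i
      fin_cases i
      exacts [m00, m11, r2, r3]
    exact (B.repr.map_eq_zero_iff).1 h0
  · intro a
    rw [hΛa]
    ext i j
    fin_cases i <;> fin_cases j <;> simp <;> ring
  · intro z
    have hz : β (θ z) (θ z) = ((z 0).re * (z 0).re + (z 0).im * (z 0).im) • t₁ +
        ((z 1).re * (z 1).re + (z 1).im * (z 1).im) • t₂ +
        (2 * ((z 0).re * (z 1).re + (z 0).im * (z 1).im)) • k₀ +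
        (2 * ((z 0).re * (z 1).im - (z 0).im * (z 1).re)) • k₁ := by
      rw [hθ]
      simp only [map_add, map_smul, LinearMap.add_apply, LinearMap.smul_apply]
      rw [hsymm x₁ x₀, hsymm y₀ x₀, hsymm y₁ x₀, hsymm y₀ x₁, hsymm y₁ x₁, hsymm y₁ y₀,
        h1, h2, h3, h4, h5, h6, h7, h8, h9, h10]
      module
    have e0 : Λ t₁ = !![1, 0; 0, 0] := by simpa [hB] using hΛ 0
    have e1 : Λ t₂ = !![0, 0; 0, 1] := by simpa [hB] using hΛ 1
    have e2 : Λ k₀ = !![0, 1 / 2; 1 / 2, 0] := by simpa [hB] using hΛ 2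
    have e3 : Λ k₁ = !![0, - Complex.I / 2; Complex.I / 2, 0] := by simpa [hB] using hΛ 3
    rw [hz]
    simp only [map_add, map_smul, e0, e1, e2, e3]
    ext i j
    fin_cases i <;> fin_cases j <;> apply Complex.ext <;>
      simp [Matrix.vecMulVec_apply] <;> ring

end Pool.Agent.H51.KV
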