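import Pool.Agent.H61.KV.TE
import Pool.Agent.H61.KV.TS

/-!
# Kuiper board KV, row JOI

Two points are joined by a minimal face.
-/

open Pool.Agent.H59 Pool.Agent.H64.LB Pool.Agent.H61.KU
open Pool.Agent.H61.KV

namespace Pool.Agent.H51.KV

theorem pf_JOI (hCNC : T_CNC) (hFTR : T_FTR) (hP1N : T_P1N) (hTWB : T_TWB) (hRK4 : T_RK4)
    (hMAX : T_MAX) (hSTJ : T_STJ) (hMIT : T_MIT) (hEXM : T_EXM) : T_JOI := by
  intro V _ _ _ m hm hns x y _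
  obtain ⟨hC, -, hmC, hm0, -, -, -, -⟩ := hCNC V m hm
  have hMh : ∀ z : PN 2, m z ∈ Mh m := fun z => ⟨1, z, zero_le_one, (one_smul ℝ _).symm⟩
  have key : ∀ (z : PN 2) (p : V), Ms m p → m z ∉ Fc (Cn m) p →
      Ov (Cn m) p (m z) ∧ Foot (Cn m) p (m z) (m z) := by
    intro z p hp hz
    have hov : Ov (Cn m) p (m z) := hMAX V m hm hns p hp (m z) (hmC z) hz
    exact ⟨hov, hSTJ V m hm p hp (m z) (hMh z) hov⟩
  have step1 : ∃ p, Ms m p ∧ m x ∈ Fc (Cn m) p := by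
    obtain ⟨p, hp⟩ := hEXM V m hm hns
    by_cases hx : m x ∈ Fc (Cn m) p
    · exact ⟨p, hp, hx⟩
    · obtain ⟨hov, hf⟩ := key x p hp hx
      have hfr : 3 ≤ Module.finrank ℝ (Sp (Cn m) p) := by
        have := (hP1N V m hm p hp).1
        omega
      obtain ⟨t, ht, -⟩ := hTWB V (Cn m) p 0 hC hp.1 hfr
      have hp' : Ms m (m x + t) := hRK4 V m hm hns p (m x) t hp hf hov ht
      exact ⟨m x + t, hp', (hFTR V (Cn m) p (m x) t hC hp.1 (hmC x) ht.1 hf).1⟩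
  obtain ⟨p, hp, hx⟩ := step1
  by_cases hy : m y ∈ Fc (Cn m) p
  · exact ⟨p, hp, hx, hy⟩
  · obtain ⟨hov, hf⟩ := key y p hp hy
    have hbd : Bd (Cn m) p (m x) := ⟨hx, hm0 x, hMIT V m hm hns p hp (m x) hx (hMh x)⟩
    have hp' : Ms m (m y + m x) := hRK4 V m hm hns p (m y) (m x) hp hf hov hbd
    obtain ⟨h1, h2, -⟩ := hFTR V (Cn m) p (m y) (m x) hC hp.1 (hmC y) hx hf
    exact ⟨m y + m x, hp', h2, h1⟩

end Pool.Agent.H51.KV
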