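import Pool.Agent.H61.KV.TE
import Pool.Agent.H61.KV.TS

/-!
# Kuiper board KV, row MIT

The relative interior of a minimal face contains no point of `Mh m`.
-/

open Pool.Agent.H61.KV

namespace Pool.Agent.H51.KV

theorem pf_MIT (hFCB : T_FCB) (hCNC : T_CNC) (hSTM : T_STM) (hFTR : T_FTR) (hP1N : T_P1N)
    (hTWB : T_TWB) (hEOV : T_EOV) (hRK4 : T_RK4) (hMAX : T_MAX) (hSTJ : T_STJ) : T_MIT := by
  intro V _ _ _ m hm hns p hp q hq hqM hpq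
  obtain ⟨hC, -, -, -, -, -, -, -⟩ := hCNC V m hm
  have hpC : p ∈ Cn m := hp.1
  obtain ⟨hpp, -, -, hsub, -, -, heq⟩ := hFCB V (Cn m) p hC hpC
  have hqp : Fc (Cn m) q = Fc (Cn m) p := heq q hq hpq
  obtain ⟨γ, hγ, hov⟩ := hEOV V m hm p hp
  have hfr : 3 ≤ Module.finrank ℝ (Sp (Cn m) p) := by
    have := (hP1N V m hm p hp).1
    omega
  obtain ⟨t, ht, -⟩ := hTWB V (Cn m) p 0 hC hpC hfr
  have h0 : (0 : V) ∈ Fc (Cn m) p := ⟨hC.zero, 0, le_refl _, by simpa using hC.zero⟩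
  have hγC : γ ∈ Cn m := ((hγ γ).2 (by rw [sub_self]; exact h0)).1
  have hp' : Ms m (γ + t) := hRK4 V m hm hns p γ t hp hγ hov ht
  obtain ⟨-, htp', h3⟩ := hFTR V (Cn m) p γ t hC hpC hγC ht.1 hγ
  have hqn : q ∉ Fc (Cn m) (γ + t) := by
    intro h
    have hqt : q ∈ Fc (Cn m) t := h3 q hq h
    obtain ⟨-, -, -, hsubt, -, -, -⟩ := hFCB V (Cn m) t hC ht.1.1
    exact ht.2.2 (hsubt q hqt hpq)
  have hov' : Ov (Cn m) (γ + t) q := hMAX V m hm hns (γ + t) hp' q hq.1 hqn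
  have hf : Foot (Cn m) (γ + t) q q := hSTJ V m hm (γ + t) hp' q hqM hov'
  obtain ⟨hz, -, -⟩ := hSTM V m hm (γ + t) hp' q q hf
  exact ht.2.1 (hz t (by rw [hqp]; exact ht.1) htp')

end Pool.Agent.H51.KV
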